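import Pool.Agent.Work.MP_9390ab_lc.CN.Stmts

set_option autoImplicit false

namespace Pool.Agent.CN

/-- graphs and sets of non-diagonal unordered pairs -/
noncomputable def graphEquivSet (n : ℕ) :
    SimpleGraph (Fin n) ≃ Set {e : Sym2 (Fin n) // ¬ e.IsDiag} where
  toFun G := {e | (e : Sym2 (Fin n)) ∈ G.edgeSet}
  invFun s := SimpleGraph.fromEdgeSet (Subtype.val '' s)
  left_inv G := by
    ext u v
    simp only [SimpleGraph.fromEdgeSet_adj, Set.mem_image, Subtype.exists, exists_and_right,
      exists_eq_right]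
    constructor
    · rintro ⟨⟨_, h⟩, _⟩
      exact h
    · intro h
      exact ⟨⟨by simpa using h.ne, h⟩, h.ne⟩
  right_inv s := by
    ext e
    obtain ⟨e, he⟩ := e
    simp only [SimpleGraph.edgeSet_fromEdgeSet]
    constructor
    · rintro ⟨⟨⟨e', he'⟩, h1, h2⟩, _⟩
      simp only at h2
      subst h2
      exact h1
    · intro h
      exact ⟨⟨⟨e, he⟩, h, rfl⟩, he⟩

theorem pr_GC : StGC := by
  intro n
  classical
  rw [Nat.card_congr (graphEquivSet n), Nat.card_eq_fintype_card, Fintype.card_set,
    Sym2.card_subtype_not_diag, Fintype.card_fin]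

end Pool.Agent.CN
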