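import Pool.Agent.Work.MP_9390ab_lc.CN.Stmts

/-!
# Item VC: the number of sign patterns of linear forms
-/

set_option autoImplicit false

namespace Pool.Agent.CN

open Finset
open scoped Classical

theorem VC_dep {ι E : Type} [AddCommGroup E] [Module ℝ E] [FiniteDimensional ℝ E]
    (F : ι → E →ₗ[ℝ] ℝ) (t : Finset ι) (ht : Module.finrank ℝ E < t.card) :
    ∃ c : t → ℝ, ∑ i : t, c i • F i = 0 ∧ ∃ i, c i < 0 := by
  have h1 : ¬ LinearIndependent ℝ (fun i : t => F i) := by
    intro hli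
    have h2 := hli.fintype_card_le_finrank
    rw [Fintype.card_coe] at h2
    have h3 : Module.finrank ℝ (E →ₗ[ℝ] ℝ) = Module.finrank ℝ E := Subspace.dual_finrank_eq
    omega
  rw [Fintype.not_linearIndependent_iff] at h1
  obtain ⟨g, hg, i, hi⟩ := h1
  rcases lt_or_gt_of_ne hi with h | h
  · exact ⟨g, hg, i, h⟩
  · refine ⟨fun i => - g i, ?_, i, by simpa using h⟩
    refine LinearMap.ext fun y => ?_
    have h5 := congrArg (fun f : E →ₗ[ℝ] ℝ => f y) hg
    simp only [LinearMap.sum_apply, LinearMap.smul_apply, LinearMap.zero_apply, smul_eq_mul] at h5 ⊢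
    simp only [neg_mul, Finset.sum_neg_distrib, h5, neg_zero]

theorem VC_sum (N m : ℕ) : ∑ k ∈ Finset.Iic m, N.choose k ≤ (N + 1) ^ m := by
  rw [add_pow]
  have h1 : Finset.Iic m = Finset.range (m + 1) := by
    ext k
    simp
  rw [h1]
  refine Finset.sum_le_sum fun k hk => ?_
  have hk' : k ≤ m := by
    have := Finset.mem_range.mp hk
    omega
  rw [one_pow, mul_one]
  calc N.choose k ≤ N ^ k := Nat.choose_le_pow N k
    _ = N ^ k * 1 := (mul_one _).symm
    _ ≤ N ^ k * m.choose k := Nat.mul_le_mul_left _ (Nat.choose_pos hk')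

theorem pr_VC : StVC := by
  intro ι E _ _ _ _ F
  obtain ⟨A, hA⟩ : ∃ A : Finset (Finset ι), A = (univ : Finset (Finset ι)).filter
    (fun B => ∃ x : E, B = univ.filter (fun i => 0 ≤ F i x)) := ⟨_, rfl⟩
  have hmem : ∀ B : Finset ι, B ∈ A ↔ ∃ x : E, B = univ.filter (fun i => 0 ≤ F i x) := by
    intro B
    rw [hA, Finset.mem_filter]
    exact ⟨fun h => h.2, fun h => ⟨Finset.mem_univ _, h⟩⟩
  -- the range is the image of A
  have hrange : Set.range (fun x : E => {i : ι | 0 ≤ F i x}) =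
      (fun B : Finset ι => (B : Set ι)) '' (A : Set (Finset ι)) := by
    ext s
    constructor
    · rintro ⟨x, rfl⟩
      refine ⟨univ.filter (fun i => 0 ≤ F i x), ?_, ?_⟩
      · exact Finset.mem_coe.mpr ((hmem _).mpr ⟨x, rfl⟩)
      · ext i
        simp
    · rintro ⟨B, hB, rfl⟩
      obtain ⟨x, rfl⟩ := (hmem B).mp (Finset.mem_coe.mp hB)
      refine ⟨x, ?_⟩
      ext i
      simp
  rw [hrange, Set.ncard_image_of_injective _ Finset.coe_injective, Set.ncard_coe_finset]
  -- the VC dimension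
  have hvc : A.vcDim ≤ Module.finrank ℝ E := by
    unfold Finset.vcDim
    refine Finset.sup_le fun t ht => ?_
    rw [Finset.mem_shatterer] at ht
    by_contra hlt
    push Not at hlt
    obtain ⟨c, hc, i0, hi0⟩ := VC_dep F t hlt
    obtain ⟨u, hu, htu⟩ := ht (Finset.filter_subset (fun i => ∃ h : i ∈ t, 0 ≤ c ⟨i, h⟩) t)
    obtain ⟨x, hx⟩ := (hmem u).mp hu
    have hiff : ∀ i : t, 0 ≤ F i x ↔ 0 ≤ c i := by
      intro i
      have h1 : (i : ι) ∈ t ∩ u ↔ (i : ι) ∈ t.filter (fun i => ∃ h : i ∈ t, 0 ≤ c ⟨i, h⟩) := by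
        rw [htu]
      rw [Finset.mem_inter, Finset.mem_filter, hx, Finset.mem_filter] at h1
      constructor
      · intro h
        obtain ⟨_, h3⟩ := (h1.mp ⟨i.2, Finset.mem_univ _, h⟩).2
        exact h3
      · intro h
        exact (h1.mpr ⟨i.2, i.2, h⟩).2.2
    have hnn : ∀ i : t, 0 ≤ c i * F i x := by
      intro i
      by_cases h : 0 ≤ c i
      · exact mul_nonneg h ((hiff i).mpr h)
      · have h2 : ¬ 0 ≤ F i x := fun h3 => h ((hiff i).mp h3)
        exact mul_nonneg_of_nonpos_of_nonpos (le_of_lt (not_le.mp h)) (le_of_lt (not_le.mp h2))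
    have hpos : 0 < ∑ i : t, c i * F i x := by
      refine Finset.sum_pos' (fun i _ => hnn i) ⟨i0, Finset.mem_univ _, ?_⟩
      have h2 : ¬ 0 ≤ F i0 x := fun h3 => absurd ((hiff i0).mp h3) (not_le.mpr hi0)
      exact mul_pos_of_neg_of_neg hi0 (not_le.mp h2)
    have hzero : ∑ i : t, c i * F i x = 0 := by
      have h1 := congrArg (fun f : E →ₗ[ℝ] ℝ => f x) hc
      simpa [LinearMap.sum_apply, LinearMap.smul_apply, smul_eq_mul] using h1
    linarith
  calc A.card ≤ A.shatterer.card := Finset.card_le_card_shatterer A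
    _ ≤ ∑ k ∈ Finset.Iic A.vcDim, (Fintype.card ι).choose k := Finset.card_shatterer_le_sum_vcDim
    _ ≤ ∑ k ∈ Finset.Iic (Module.finrank ℝ E), (Fintype.card ι).choose k :=
        Finset.sum_le_sum_of_subset (Finset.Iic_subset_Iic.mpr hvc)
    _ ≤ (Fintype.card ι + 1) ^ Module.finrank ℝ E := VC_sum _ _

end Pool.Agent.CN
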