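import Pool.Agent.Work.MP_9390ab_lc.CN.Stmts2
import Pool.Agent.Work.MP_9390ab_lc.CN.I_VC
import Pool.Agent.Work.MP_9390ab_lc.CN.I_GC
import Pool.Agent.Work.MP_9390ab_lc.CK

/-!
# Assembly of the block CN with the types of CK.lean
-/

set_option autoImplicit false

namespace Pool.Agent.CN

namespace CK7

open Pool.Agent.PCG

/-- Parameters: heights, values, `dmin`, `dmax`. -/
abbrev Pm (n : ℕ) : Type := (Fin n → ℝ) × (Fin n → ℝ) × ℝ × ℝ

/-- The linear forms of a type. -/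
def form (n : ℕ) (p r : Fin n → Fin n) (t : Fin n × Fin n) : Pm n →ₗ[ℝ] ℝ where
  toFun x := if t.1 < t.2 then x.1 t.1 + x.1 t.2 - 2 * x.2.1 (Count.K p r t.1 t.2) - x.2.2.1 else
    x.2.2.2 - (x.1 t.1 + x.1 t.2 - 2 * x.2.1 (Count.K p r t.1 t.2))
  map_add' x y := by
    split_ifs
    · simp only [Prod.fst_add, Prod.snd_add, Pi.add_apply]; ring
    · simp only [Prod.fst_add, Prod.snd_add, Pi.add_apply]; ring
  map_smul' c x := by
    split_ifs
    · simp only [Prod.smul_fst, Prod.smul_snd, Pi.smul_apply, smul_eq_mul, RingHom.id_apply]; ring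
    · simp only [Prod.smul_fst, Prod.smul_snd, Pi.smul_apply, smul_eq_mul, RingHom.id_apply]; ring

/-- The graph of a sign pattern. -/
def decode {n : ℕ} (B : Set (Fin n × Fin n)) : SimpleGraph (Fin n) where
  Adj u v := u ≠ v ∧ (u, v) ∈ B ∧ (v, u) ∈ B
  symm := ⟨fun _ _ h => ⟨h.1.symm, h.2.2, h.2.1⟩⟩
  loopless := ⟨fun _ h => h.1 rfl⟩

theorem exists_decode {n : ℕ} (M : WTree (Fin n)) :
    ∃ (p r : Fin n → Fin n) (x : Pm n), M.graph = decode {t | 0 ≤ form n p r t x} := by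
  obtain ⟨p, r, a, h, hd⟩ := Count.types M
  refine ⟨p, r, (a, h, M.dmin, M.dmax), ?_⟩
  have key : ∀ u v : Fin n, u < v →
      ((M.dmin ≤ M.dist u v ∧ M.dist u v ≤ M.dmax) ↔
        ((u, v) ∈ {t | 0 ≤ form n p r t (a, h, M.dmin, M.dmax)} ∧
          (v, u) ∈ {t | 0 ≤ form n p r t (a, h, M.dmin, M.dmax)})) := by
    intro u v huv
    have hvu : ¬ v < u := not_lt.2 huv.le
    have h1 := hd u v huv.ne
    have h2 := hd v u huv.ne'
    rw [M.dist_comm v u] at h2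
    simp only [form, LinearMap.coe_mk, AddHom.coe_mk, Set.mem_ofPred_eq, huv, hvu, if_true, if_false]
    constructor
    · rintro ⟨ha, hb⟩
      exact ⟨by linarith, by linarith⟩
    · rintro ⟨ha, hb⟩
      exact ⟨by linarith, by linarith⟩
  ext u v
  show (u ≠ v ∧ M.dmin ≤ M.dist u v ∧ M.dist u v ≤ M.dmax) ↔ (u ≠ v ∧ _ ∧ _)
  rcases lt_trichotomy u v with h1 | h1 | h1
  · rw [key u v h1]
  · subst h1
    simp
  · rw [M.dist_comm u v, key v u h1, and_comm (a := (v, u) ∈ _)]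

theorem pcgs_card7 (n : ℕ) :
    (pcgs n).ncard ≤ n ^ (2 * n) * (n ^ 2 + 1) ^ (2 * n + 2) := by
  classical
  have hsub : pcgs n ⊆ ⋃ q ∈ (Finset.univ : Finset ((Fin n → Fin n) × (Fin n → Fin n))),
      (decode '' Set.range (fun x : Pm n => {t | 0 ≤ form n q.1 q.2 t x})) := by
    rintro G ⟨M, rfl⟩
    obtain ⟨p, r, x, h⟩ := exists_decode M
    simp only [Set.mem_iUnion]
    exact ⟨(p, r), Finset.mem_univ _, ⟨_, ⟨x, rfl⟩, h.symm⟩⟩
  refine (Set.ncard_le_ncard hsub (Set.toFinite _)).trans ?_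
  refine (Finset.set_ncard_biUnion_le _ _).trans ?_
  have h1 : ∀ q ∈ (Finset.univ : Finset ((Fin n → Fin n) × (Fin n → Fin n))),
      (decode '' Set.range (fun x : Pm n => {t | 0 ≤ form n q.1 q.2 t x})).ncard ≤
        (n ^ 2 + 1) ^ (2 * n + 2) := by
    intro q _
    refine (Set.ncard_image_le (Set.toFinite _)).trans ?_
    refine (pr_VC _ _ (form n q.1 q.2)).trans (le_of_eq ?_)
    have e1 : Fintype.card (Fin n × Fin n) = n ^ 2 := by
      simp only [Fintype.card_prod, Fintype.card_fin]; ring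
    have e2 : Module.finrank ℝ (Pm n) = 2 * n + 2 := by
      simp only [Module.finrank_prod, Module.finrank_fin_fun, Module.finrank_self]; ring
    rw [e1, e2]
  refine (Finset.sum_le_card_nsmul _ _ _ h1).trans (le_of_eq ?_)
  rw [Finset.card_univ, Fintype.card_prod, Fintype.card_fun, Fintype.card_fin, smul_eq_mul, two_mul n,
    pow_add n n n, ← two_mul n]

theorem num7 (n : ℕ) (hn : 16 ≤ n) : n ^ (2 * n) * (n ^ 2 + 1) ^ (2 * n + 2) ≤ n ^ (7 * n) := by
  have h1 : (n ^ 2 + 1) ^ (2 * n + 2) ≤ n ^ (5 * n) := by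
    have h2 : n ^ 2 + 1 ≤ 2 * n ^ 2 := by nlinarith
    have h3 : 2 ^ (2 * n + 2) ≤ n ^ (n - 4) := by
      calc 2 ^ (2 * n + 2) ≤ 2 ^ (4 * (n - 4)) := Nat.pow_le_pow_right (by norm_num) (by omega)
        _ = 16 ^ (n - 4) := by rw [pow_mul]; norm_num
        _ ≤ n ^ (n - 4) := Nat.pow_le_pow_left hn _
    calc (n ^ 2 + 1) ^ (2 * n + 2) ≤ (2 * n ^ 2) ^ (2 * n + 2) := Nat.pow_le_pow_left h2 _
      _ = 2 ^ (2 * n + 2) * n ^ (2 * (2 * n + 2)) := by rw [mul_pow, ← pow_mul]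
      _ ≤ n ^ (n - 4) * n ^ (2 * (2 * n + 2)) := Nat.mul_le_mul_right _ h3
      _ = n ^ (5 * n) := by
        rw [← pow_add]
        congr 1
        omega
  calc n ^ (2 * n) * (n ^ 2 + 1) ^ (2 * n + 2) ≤ n ^ (2 * n) * n ^ (5 * n) := Nat.mul_le_mul_left _ h1
    _ = n ^ (7 * n) := by
      rw [← pow_add]
      congr 1
      omega

theorem num7' (n : ℕ) (hn : n < 16) : 2 ^ n.choose 2 ≤ n ^ (7 * n) := by
  rcases Nat.lt_or_ge n 2 with h | h
  · interval_cases n <;> simp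
  · have h1 : n.choose 2 ≤ 7 * n := by
      rw [Nat.choose_two_right]
      have : n * (n - 1) ≤ n * 14 := Nat.mul_le_mul_left _ (by omega)
      omega
    calc 2 ^ n.choose 2 ≤ 2 ^ (7 * n) := Nat.pow_le_pow_right (by norm_num) h1
      _ ≤ n ^ (7 * n) := Nat.pow_le_pow_left h _

end CK7

open CK7 in
theorem pcgs_le7 (n : ℕ) : (pcgs n).ncard ≤ n ^ (7 * n) := by
  rcases Nat.lt_or_ge n 16 with h | h
  · refine le_trans ?_ (num7' n h)
    rw [← pr_GC n]
    exact Set.ncard_le_card _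
  · exact (pcgs_card7 n).trans (num7 n h)

theorem yesInputs_le7 (n : ℕ) : (yesInputs n).ncard ≤ n ^ (7 * n) * 2 ^ n.choose 2 := by
  have hsub : yesInputs n ⊆ (fun q : SimpleGraph (Fin n) × SimpleGraph (Fin n) =>
      (q.2 ⊓ q.1, q.2 \ q.1)) '' (pcgs n ×ˢ (Set.univ : Set (SimpleGraph (Fin n)))) := by
    rintro ⟨G, S⟩ ⟨-, M, h1, h2⟩
    refine ⟨(M.graph, G ⊔ S), ⟨⟨M, rfl⟩, Set.mem_univ _⟩, ?_⟩
    refine Prod.ext ?_ ?_
    · ext u v
      have a1 := h1 u v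
      have a2 := h2 u v
      simp only [SimpleGraph.inf_adj, SimpleGraph.sup_adj]
      tauto
    · ext u v
      have a1 := h1 u v
      have a2 := h2 u v
      simp only [SimpleGraph.sdiff_adj, SimpleGraph.sup_adj]
      tauto
  have h1 := Set.ncard_le_ncard hsub (Set.toFinite _)
  refine h1.trans ((Set.ncard_image_le (Set.toFinite _)).trans ?_)
  rw [Set.ncard_prod, Set.ncard_univ, pr_GC n]
  exact Nat.mul_le_mul_right _ (pcgs_le7 n)

end Pool.Agent.CN
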