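import Pool.Agent.Work.MP_9390ab_lc.CN.Stmts2
import Pool.Agent.Work.MP_9390ab_lc.ParTree

/-!
# Item LB: `m!` pairwise compatibility graphs on `2 m` vertices
-/

set_option autoImplicit false

namespace Pool.Agent.CN

open Pool.Agent.PCG SimpleGraph

namespace LB

/-- The parents in the star: the centre `none` has no parent, the leaf `some i` has the parent
`none`. -/
def spar {n : ℕ} : Option (Fin n) → Option (Option (Fin n))
  | none => none
  | some _ => some none

/-- The depth in the star. -/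
def srk {n : ℕ} : Option (Fin n) → ℕ
  | none => 0
  | some _ => 1

theorem spar_rk {n : ℕ} (a b : Option (Fin n)) (h : spar a = some b) : srk b < srk a := by
  cases a with
  | none => simp [spar] at h
  | some i =>
    simp only [spar, Option.some.injEq] at h
    subst h
    simp [srk]

theorem spar_ne {n : ℕ} (a : Option (Fin n)) : spar a ≠ some a :=
  fun h => lt_irrefl _ (spar_rk a a h)

/-- The star with centre `none` and leaves `some i`. -/
def star (n : ℕ) : SimpleGraph (Option (Fin n)) := parGraph spar spar_ne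

theorem star_isTree {n : ℕ} : (star n).IsTree :=
  parGraph_isTree spar srk spar_rk none
    (fun a h => by
      cases a with
      | none => rfl
      | some i => simp [spar] at h) spar_ne

/-- The weights, as a function on the vertices. -/
def fw {n : ℕ} (w : Fin n → ℝ) : Option (Fin n) → ℝ
  | none => 0
  | some i => w i

/-- The weights of the edges. -/
def swt {n : ℕ} (w : Fin n → ℝ) : Sym2 (Option (Fin n)) → ℝ :=
  Sym2.lift ⟨fun a b => fw w a + fw w b, fun a b => add_comm _ _⟩

theorem swt_mk {n : ℕ} (w : Fin n → ℝ) (a b : Option (Fin n)) :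
    swt w s(a, b) = fw w a + fw w b := rfl

theorem adj_none {n : ℕ} (i : Fin n) : (star n).Adj none (some i) := Or.inr rfl

theorem adj_some {n : ℕ} (i : Fin n) : (star n).Adj (some i) none := Or.inl rfl

theorem leaf_iff {n : ℕ} (hn : 2 ≤ n) (x : Option (Fin n)) :
    x ∈ Set.range (some : Fin n → Option (Fin n)) ↔ ((star n).neighborSet x).ncard ≤ 1 := by
  constructor
  · rintro ⟨u, rfl⟩
    have : (star n).neighborSet (some u) = {none} := by
      ext z
      rw [mem_neighborSet, Set.mem_singleton_iff]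
      constructor
      · rintro (h | h)
        · simp only [spar, Option.some.injEq] at h
          exact h.symm
        · cases z with
          | none => rfl
          | some j => simp [spar] at h
      · rintro rfl
        exact adj_some u
    rw [this, Set.ncard_singleton]
  · intro h
    cases x with
    | some u => exact ⟨u, rfl⟩
    | none =>
      exfalso
      have h2 : 1 < ((star n).neighborSet none).ncard := by
        rw [Set.one_lt_ncard_iff (Set.toFinite _)]
        exact ⟨some ⟨0, by omega⟩, some ⟨1, by omega⟩, adj_none _, adj_none _, by simp⟩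
      omega

/-- The star with the weights `w`, as a weighted tree. -/
noncomputable def model {n : ℕ} (hn : 2 ≤ n) (w : Fin n → ℝ) (hw : ∀ i, 0 < w i) (a b : ℝ)
    (ha : 0 ≤ a) (hab : a ≤ b) : WTree (Fin n) where
  W := Option (Fin n)
  finite := inferInstance
  T := star n
  isTree := star_isTree
  wt := swt w
  wt_pos := by
    intro e
    induction e with
    | h x y =>
      rintro (h | h)
      · cases x with
        | none => simp [spar] at h
        | some i =>
          simp only [spar, Option.some.injEq] at h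
          subst h
          rw [swt_mk]
          simpa [fw] using hw i
      · cases y with
        | none => simp [spar] at h
        | some i =>
          simp only [spar, Option.some.injEq] at h
          subst h
          rw [swt_mk]
          simpa [fw] using hw i
  leaf := some
  leaf_injective := Option.some_injective _
  mem_range_leaf := leaf_iff hn
  dmin := a
  dmax := b
  dmin_nonneg := ha
  dmin_le_dmax := hab

theorem model_dist {n : ℕ} (hn : 2 ≤ n) (w : Fin n → ℝ) (hw : ∀ i, 0 < w i) (a b : ℝ)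
    (ha : 0 ≤ a) (hab : a ≤ b) (u v : Fin n) (huv : u ≠ v) :
    (model hn w hw a b ha hab).dist u v = w u + w v := by
  have h := treeDist_two (star_isTree (n := n)) (swt w) (a := some u) (b := none) (c := some v)
    (adj_some u) (adj_none v) (by simpa using huv)
  refine h.trans ?_
  rw [swt_mk, swt_mk]
  simp [fw]

/-- (a) The graph of the star. -/
theorem model_adj {n : ℕ} (hn : 2 ≤ n) (w : Fin n → ℝ) (hw : ∀ i, 0 < w i) (a b : ℝ)
    (ha : 0 ≤ a) (hab : a ≤ b) (u v : Fin n) :
    (model hn w hw a b ha hab).graph.Adj u v ↔ u ≠ v ∧ a ≤ w u + w v ∧ w u + w v ≤ b := by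
  show (u ≠ v ∧ a ≤ (model hn w hw a b ha hab).dist u v ∧
    (model hn w hw a b ha hab).dist u v ≤ b) ↔ _
  refine and_congr_right fun huv => ?_
  rw [model_dist hn w hw a b ha hab u v huv]

/-- The weights of the permutation `σ`. -/
noncomputable def pwt {m : ℕ} (σ : Equiv.Perm (Fin m)) (k : Fin (2 * m)) : ℝ :=
  if h : (k : ℕ) < m then ((k : ℕ) : ℝ) + 1
  else ((σ ⟨(k : ℕ) - m, by have := k.2; omega⟩ : Fin m) : ℕ) + 1

theorem pwt_pos {m : ℕ} (σ : Equiv.Perm (Fin m)) (k : Fin (2 * m)) : 0 < pwt σ k := by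
  unfold pwt
  split_ifs <;> positivity

theorem pwt_lo {m : ℕ} (σ : Equiv.Perm (Fin m)) (i : Fin m) (h : (i : ℕ) < 2 * m) :
    pwt σ ⟨i, h⟩ = ((i : ℕ) : ℝ) + 1 := by
  unfold pwt
  rw [dif_pos i.2]

theorem pwt_hi {m : ℕ} (σ : Equiv.Perm (Fin m)) (j : Fin m) (h : m + (j : ℕ) < 2 * m) :
    pwt σ ⟨m + j, h⟩ = (((σ j : Fin m) : ℕ) : ℝ) + 1 := by
  unfold pwt
  rw [dif_neg (by simp)]
  have : (⟨m + (j : ℕ) - m, by have := j.2; omega⟩ : Fin m) = j := by
    ext
    simp
  simp only [this]

/-- The graph of the permutation `σ`. -/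
noncomputable def gr {m : ℕ} (hm : 1 ≤ m) (σ : Equiv.Perm (Fin m)) : SimpleGraph (Fin (2 * m)) :=
  (model (n := 2 * m) (by omega) (pwt σ) (pwt_pos σ) ((m : ℝ) + 1) (4 * (m : ℝ) + 4)
    (by positivity) (by have : (0 : ℝ) ≤ m := Nat.cast_nonneg m; linarith)).graph

theorem gr_adj {m : ℕ} (hm : 1 ≤ m) (σ : Equiv.Perm (Fin m)) (i j : Fin m)
    (h1 : (i : ℕ) < 2 * m) (h2 : m + (j : ℕ) < 2 * m) :
    (gr hm σ).Adj ⟨i, h1⟩ ⟨m + j, h2⟩ ↔ m ≤ (i : ℕ) + (σ j : ℕ) + 1 := by
  unfold gr
  rw [model_adj, pwt_lo, pwt_hi]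
  have hi : (i : ℕ) < m := i.2
  have hj : ((σ j : Fin m) : ℕ) < m := (σ j).2
  have hne : (⟨(i : ℕ), h1⟩ : Fin (2 * m)) ≠ ⟨m + j, h2⟩ := by
    intro h
    have := congrArg Fin.val h
    simp only at this
    omega
  constructor
  · rintro ⟨-, h, -⟩
    have h' : ((m + 1 : ℕ) : ℝ) ≤ (((i : ℕ) + 1 + ((σ j : Fin m) : ℕ) + 1 : ℕ) : ℝ) := by
      push_cast
      linarith
    have := Nat.cast_le.1 h'
    omega
  · intro h
    refine ⟨hne, ?_, ?_⟩
    · have h' : ((m + 1 : ℕ) : ℝ) ≤ (((i : ℕ) + 1 + ((σ j : Fin m) : ℕ) + 1 : ℕ) : ℝ) :=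
        Nat.cast_le.2 (by omega)
      push_cast at h'
      linarith
    · have h' : (((i : ℕ) + 1 + ((σ j : Fin m) : ℕ) + 1 : ℕ) : ℝ) ≤ ((4 * m + 4 : ℕ) : ℝ) :=
        Nat.cast_le.2 (by omega)
      push_cast at h'
      linarith

theorem gr_le {m : ℕ} (hm : 1 ≤ m) (σ τ : Equiv.Perm (Fin m)) (h : gr hm σ = gr hm τ)
    (j : Fin m) : (σ j : ℕ) ≤ (τ j : ℕ) := by
  have hs : (σ j : ℕ) < m := (σ j).2
  have hj : (j : ℕ) < m := j.2
  have h1 := gr_adj hm σ ⟨m - 1 - (σ j : ℕ), by omega⟩ j (by simp only; omega) (by omega)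
  have h2 := gr_adj hm τ ⟨m - 1 - (σ j : ℕ), by omega⟩ j (by simp only; omega) (by omega)
  rw [h] at h1
  have h3 := (h1.symm.trans h2)
  simp only at h3
  have := h3.1 (by omega)
  omega

theorem gr_injective {m : ℕ} (hm : 1 ≤ m) :
    Function.Injective (gr hm : Equiv.Perm (Fin m) → SimpleGraph (Fin (2 * m))) := by
  intro σ τ h
  ext j
  exact le_antisymm (gr_le hm σ τ h j) (gr_le hm τ σ h.symm j)

end LB

/-- Item LB. -/
theorem pr_LB : StLB := by
  intro m hm
  have h1 : Set.range (LB.gr hm) ⊆ pcgs (2 * m) := by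
    rintro _ ⟨σ, rfl⟩
    exact ⟨_, rfl⟩
  have h2 : (Set.range (LB.gr hm)).ncard = m.factorial := by
    rw [← Set.image_univ, Set.ncard_image_of_injective _ (LB.gr_injective hm), Set.ncard_univ,
      Nat.card_perm, Nat.card_eq_fintype_card, Fintype.card_fin]
  rw [← h2]
  exact Set.ncard_le_ncard h1 (Set.toFinite _)

end Pool.Agent.CN
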