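import Pool.Agent.Work.MP_9390ab_lc.CN.Stmts

set_option autoImplicit false

namespace Pool.Agent.CN

open Classical in
/-- the colour of a pair: in the first graph, in the second graph, in none -/
noncomputable def pcMap (n : ℕ)
    (p : {p : SimpleGraph (Fin n) × SimpleGraph (Fin n) | Disjoint p.1 p.2})
    (e : {e : Sym2 (Fin n) // ¬ e.IsDiag}) : Fin 3 :=
  if e.1 ∈ p.1.1.edgeSet then 0 else if e.1 ∈ p.1.2.edgeSet then 1 else 2

theorem pcMap_zero (n : ℕ)
    (p : {p : SimpleGraph (Fin n) × SimpleGraph (Fin n) | Disjoint p.1 p.2})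
    (e : {e : Sym2 (Fin n) // ¬ e.IsDiag}) : pcMap n p e = 0 ↔ e.1 ∈ p.1.1.edgeSet := by
  unfold pcMap
  split_ifs <;> simp_all

theorem pcMap_one (n : ℕ)
    (p : {p : SimpleGraph (Fin n) × SimpleGraph (Fin n) | Disjoint p.1 p.2})
    (e : {e : Sym2 (Fin n) // ¬ e.IsDiag}) : pcMap n p e = 1 ↔ e.1 ∈ p.1.2.edgeSet := by
  have hd : Disjoint p.1.1.edgeSet p.1.2.edgeSet := SimpleGraph.disjoint_edgeSet.2 p.2
  have hd2 : e.1 ∈ p.1.1.edgeSet → e.1 ∉ p.1.2.edgeSet := fun h => Set.disjoint_left.1 hd h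
  unfold pcMap
  split_ifs <;> simp_all

theorem pcMap_inj (n : ℕ) : Function.Injective (pcMap n) := by
  intro p q h
  have key1 : p.1.1.edgeSet = q.1.1.edgeSet := by
    ext e
    by_cases he : e.IsDiag
    · constructor
      · intro h1
        exact absurd he (SimpleGraph.not_isDiag_of_mem_edgeSet _ h1)
      · intro h1
        exact absurd he (SimpleGraph.not_isDiag_of_mem_edgeSet _ h1)
    · rw [← pcMap_zero n p ⟨e, he⟩, ← pcMap_zero n q ⟨e, he⟩, h]
  have key2 : p.1.2.edgeSet = q.1.2.edgeSet := by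
    ext e
    by_cases he : e.IsDiag
    · constructor
      · intro h1
        exact absurd he (SimpleGraph.not_isDiag_of_mem_edgeSet _ h1)
      · intro h1
        exact absurd he (SimpleGraph.not_isDiag_of_mem_edgeSet _ h1)
    · rw [← pcMap_one n p ⟨e, he⟩, ← pcMap_one n q ⟨e, he⟩, h]
  exact Subtype.ext (Prod.ext (SimpleGraph.edgeSet_injective key1)
    (SimpleGraph.edgeSet_injective key2))

theorem pcMap_surj (n : ℕ) : Function.Surjective (pcMap n) := by
  intro f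
  have hA : ∀ (c : Fin 3) (e : Sym2 (Fin n)),
      e ∈ (SimpleGraph.fromEdgeSet {e : Sym2 (Fin n) | ∃ h : ¬ e.IsDiag, f ⟨e, h⟩ = c}).edgeSet ↔
      ∃ h : ¬ e.IsDiag, f ⟨e, h⟩ = c := by
    intro c e
    rw [SimpleGraph.edgeSet_fromEdgeSet]
    constructor
    · intro h
      exact h.1
    · intro h
      exact ⟨h, fun h2 => h.1 (by simpa using h2)⟩
  have hd : Disjoint
      (SimpleGraph.fromEdgeSet {e : Sym2 (Fin n) | ∃ h : ¬ e.IsDiag, f ⟨e, h⟩ = 0})
      (SimpleGraph.fromEdgeSet {e : Sym2 (Fin n) | ∃ h : ¬ e.IsDiag, f ⟨e, h⟩ = 1}) := by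
    rw [← SimpleGraph.disjoint_edgeSet, Set.disjoint_left]
    intro e h1 h2
    obtain ⟨h1a, h1b⟩ := (hA 0 e).1 h1
    obtain ⟨h2a, h2b⟩ := (hA 1 e).1 h2
    rw [h1b] at h2b
    exact absurd h2b (by decide)
  refine ⟨⟨(_, _), hd⟩, ?_⟩
  funext e
  have h0 := pcMap_zero n ⟨(_, _), hd⟩ e
  have h1 := pcMap_one n ⟨(_, _), hd⟩ e
  have e0 : pcMap n ⟨(_, _), hd⟩ e = 0 ↔ f e = 0 := by
    rw [h0]
    exact (hA 0 e.1).trans ⟨fun h => h.2, fun h => ⟨e.2, h⟩⟩
  have e1 : pcMap n ⟨(_, _), hd⟩ e = 1 ↔ f e = 1 := by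
    rw [h1]
    exact (hA 1 e.1).trans ⟨fun h => h.2, fun h => ⟨e.2, h⟩⟩
  generalize pcMap n ⟨(_, _), hd⟩ e = a at e0 e1
  generalize f e = b at e0 e1
  revert a b
  decide

/-- PC. The number of pairs of graphs without a common edge. -/
theorem pr_PC : StPC := by
  intro n
  classical
  have h1 := Nat.card_congr (Equiv.ofBijective (pcMap n) ⟨pcMap_inj n, pcMap_surj n⟩)
  rw [Nat.card_coe_set_eq] at h1
  rw [h1, Nat.card_eq_fintype_card, Fintype.card_fun, Fintype.card_fin,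
    Sym2.card_subtype_not_diag, Fintype.card_fin]

end Pool.Agent.CN
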