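import Pool.Agent.Work.MP_9390ab_lc.CN.Lim
import Pool.Agent.Work.MP_9390ab_lc.CN.I_GC

/-!
# Limits of the fractions
-/

set_option autoImplicit false

namespace Pool.Agent.CN

open Filter Topology

theorem lim_pcgs (h : ∀ n : ℕ, (pcgs n).ncard ≤ n ^ (8 * n)) :
    Tendsto (fun n : ℕ => ((pcgs n).ncard : ℝ) / Nat.card (SimpleGraph (Fin n))) atTop (𝓝 0) := by
  refine squeeze_zero (fun n => by positivity) (fun n => ?_)
    (lim_aux (q := 1 / 2) (by norm_num) (by norm_num))
  rw [pr_GC n, div_pow, one_pow, mul_one_div]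
  have h1 : ((pcgs n).ncard : ℝ) ≤ (n : ℝ) ^ (8 * n) := by exact_mod_cast h n
  push_cast
  exact div_le_div_of_nonneg_right h1 (by positivity)

theorem lim_yes (h : ∀ n : ℕ, (yesInputs n).ncard ≤ n ^ (8 * n) * 2 ^ n.choose 2)
    (h' : ∀ n : ℕ, (inputs n).ncard = 3 ^ n.choose 2) :
    Tendsto (fun n : ℕ => ((yesInputs n).ncard : ℝ) / (inputs n).ncard) atTop (𝓝 0) := by
  refine squeeze_zero (fun n => by positivity) (fun n => ?_)
    (lim_aux (q := 2 / 3) (by norm_num) (by norm_num))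
  rw [h' n, div_pow, ← mul_div_assoc]
  have h1 : ((yesInputs n).ncard : ℝ) ≤ (n : ℝ) ^ (8 * n) * 2 ^ n.choose 2 := by
    exact_mod_cast h n
  push_cast
  exact div_le_div_of_nonneg_right h1 (by positivity)

end Pool.Agent.CN
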