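import Pool.Agent.Work.MP_9390ab_lc.CN.Stmts2

/-!
# Assembly of the block CN
-/

set_option autoImplicit false

namespace Pool.Agent.CN

open Pool.Agent.PCG

/-- Parameters: heights, gaps, `dmin`, `dmax`. -/
abbrev Par (n : ℕ) : Type := (Fin n → ℝ) × (Fin n → ℝ) × ℝ × ℝ

/-- The linear forms. -/
def form (n : ℕ) (t : Fin n × Fin n × Fin n) : Par n →ₗ[ℝ] ℝ where
  toFun x := if t.1 < t.2.1 then x.1 t.1 + x.1 t.2.1 - 2 * x.2.1 t.2.2 - x.2.2.1 else
    x.2.2.2 - (x.1 t.1 + x.1 t.2.1 - 2 * x.2.1 t.2.2)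
  map_add' x y := by
    split_ifs
    · simp only [Prod.fst_add, Prod.snd_add, Pi.add_apply]; ring
    · simp only [Prod.fst_add, Prod.snd_add, Pi.add_apply]; ring
  map_smul' c x := by
    split_ifs
    · simp only [Prod.smul_fst, Prod.smul_snd, Pi.smul_apply, smul_eq_mul, RingHom.id_apply]; ring
    · simp only [Prod.smul_fst, Prod.smul_snd, Pi.smul_apply, smul_eq_mul, RingHom.id_apply]; ring

/-- The condition for `i < j`. -/
def Cond {n : ℕ} (B : Set (Fin n × Fin n × Fin n)) (i j : Fin n) : Prop :=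
  (∃ k, i ≤ k ∧ k < j ∧ (i, j, k) ∈ B) ∧ ∀ k, i ≤ k → k < j → (j, i, k) ∈ B

/-- The graph of an ordering and a sign pattern. -/
def decode {n : ℕ} (p : Equiv.Perm (Fin n) × Set (Fin n × Fin n × Fin n)) :
    SimpleGraph (Fin n) where
  Adj u v := (p.1.symm u < p.1.symm v ∧ Cond p.2 (p.1.symm u) (p.1.symm v)) ∨
    (p.1.symm v < p.1.symm u ∧ Cond p.2 (p.1.symm v) (p.1.symm u))
  symm := ⟨fun _ _ h => h.symm⟩
  loopless := ⟨fun u h => by
    rcases h with h | h
    · exact lt_irrefl _ h.1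
    · exact lt_irrefl _ h.1⟩

theorem exists_decode (hUO : StUO) {n : ℕ} (hn : 0 < n) (M : WTree (Fin n)) :
    ∃ (π : Equiv.Perm (Fin n)) (x : Par n), M.graph = decode (π, {t | 0 ≤ form n t x}) := by
  let r : Fin n := ⟨0, hn⟩
  obtain ⟨π, g, h⟩ := hUO n (fun u v => (M.dist u r + M.dist v r - M.dist u v) / 2)
    (fun u v => by
      show (M.dist u r + M.dist v r - M.dist u v) / 2 = (M.dist v r + M.dist u r - M.dist v u) / 2
      rw [M.dist_comm u v]; ring)
    (fun u v w => by
      show min ((M.dist u r + M.dist v r - M.dist u v) / 2)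
        ((M.dist v r + M.dist w r - M.dist v w) / 2) ≤ (M.dist u r + M.dist w r - M.dist u w) / 2
      have h4 := M.four_point u w v r
      rw [M.dist_comm w v] at h4
      rcases le_max_iff.1 h4 with h | h
      · refine (min_le_left _ _).trans ?_
        linarith
      · refine (min_le_right _ _).trans ?_
        linarith)
  refine ⟨π, (fun i => M.dist (π i) r, g, M.dmin, M.dmax), ?_⟩
  set x : Par n := (fun i => M.dist (π i) r, g, M.dmin, M.dmax) with hx
  have key : ∀ i j : Fin n, i < j →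
      ((M.dmin ≤ M.dist (π i) (π j) ∧ M.dist (π i) (π j) ≤ M.dmax) ↔
        Cond {t | 0 ≤ form n t x} i j) := by
    intro i j hij
    obtain ⟨h1, k0, hk1, hk2, hk3⟩ := h i j hij
    have hji : ¬ j < i := not_lt.2 hij.le
    unfold Cond
    simp only [form, LinearMap.coe_mk, AddHom.coe_mk, Set.mem_setOf_eq, hij, hji, if_true,
      if_false, hx]
    constructor
    · rintro ⟨ha, hb⟩
      refine ⟨⟨k0, hk1, hk2, by linarith⟩, fun k hk hk' => ?_⟩
      have := h1 k hk hk'
      linarith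
    · rintro ⟨⟨k, hk, hk', hk''⟩, hb⟩
      have e1 := h1 k hk hk'
      have e2 := hb k0 hk1 hk2
      constructor <;> linarith
  ext u v
  obtain ⟨i, rfl⟩ := π.surjective u
  obtain ⟨j, rfl⟩ := π.surjective v
  show (π i ≠ π j ∧ M.dmin ≤ M.dist (π i) (π j) ∧ M.dist (π i) (π j) ≤ M.dmax) ↔
    ((π.symm (π i) < π.symm (π j) ∧ Cond _ (π.symm (π i)) (π.symm (π j))) ∨
      (π.symm (π j) < π.symm (π i) ∧ Cond _ (π.symm (π j)) (π.symm (π i))))
  rw [Equiv.symm_apply_apply, Equiv.symm_apply_apply]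
  rcases lt_trichotomy i j with hij | hij | hij
  · have hne : π i ≠ π j := fun h => hij.ne (π.injective h)
    have hji : ¬ j < i := not_lt.2 hij.le
    rw [key i j hij]
    simp only [hne, hij, hji, ne_eq, not_false_eq_true, true_and, false_and, or_false]
  · subst hij
    simp
  · have hne : π i ≠ π j := fun h => hij.ne' (π.injective h)
    have hji : ¬ i < j := not_lt.2 hij.le
    rw [M.dist_comm (π i) (π j), key j i hij]
    simp only [hne, hij, hji, ne_eq, not_false_eq_true, true_and, false_and, false_or]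

theorem pcgs_card (hVC : StVC) (hUO : StUO) (n : ℕ) :
    (pcgs n).ncard ≤ n.factorial * (n ^ 3 + 1) ^ (2 * n + 2) := by
  rcases Nat.eq_zero_or_pos n with rfl | hn
  · have h1 : (pcgs 0).ncard ≤ 1 :=
      Set.ncard_le_one_of_subsingleton _
    simpa using h1
  · have hsub : pcgs n ⊆ decode '' ((Set.univ : Set (Equiv.Perm (Fin n))) ×ˢ
        Set.range (fun x : Par n => {t | 0 ≤ form n t x})) := by
      rintro G ⟨M, rfl⟩
      obtain ⟨π, x, h⟩ := exists_decode hUO hn M
      exact ⟨(π, {t | 0 ≤ form n t x}), ⟨Set.mem_univ _, ⟨x, rfl⟩⟩, h.symm⟩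
    have h1 := Set.ncard_le_ncard hsub (Set.toFinite _)
    refine h1.trans ((Set.ncard_image_le (Set.toFinite _)).trans ?_)
    rw [Set.ncard_prod, Set.ncard_univ, Nat.card_eq_fintype_card, Fintype.card_perm,
      Fintype.card_fin]
    refine Nat.mul_le_mul_left _ ((hVC _ _ (form n)).trans (le_of_eq ?_))
    have e1 : Fintype.card (Fin n × Fin n × Fin n) = n ^ 3 := by
      simp only [Fintype.card_prod, Fintype.card_fin]; ring
    have e2 : Module.finrank ℝ (Par n) = 2 * n + 2 := by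
      simp only [Module.finrank_prod, Module.finrank_fin_fun, Module.finrank_self]; ring
    rw [e1, e2]

theorem pcgs_le (hVC : StVC) (hUO : StUO) (hGC : StGC) (hNU : StNU) (n : ℕ) :
    (pcgs n).ncard ≤ n ^ (8 * n) := by
  rcases hNU n with h | h
  · exact (pcgs_card hVC hUO n).trans h
  · refine le_trans ?_ h
    rw [← hGC n]
    exact Set.ncard_le_card _

theorem yesInputs_le (hVC : StVC) (hUO : StUO) (hGC : StGC) (hNU : StNU) (n : ℕ) :
    (yesInputs n).ncard ≤ n ^ (8 * n) * 2 ^ n.choose 2 := by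
  have hsub : yesInputs n ⊆ (fun q : SimpleGraph (Fin n) × SimpleGraph (Fin n) =>
      (q.2 ⊓ q.1, q.2 \ q.1)) '' (pcgs n ×ˢ (Set.univ : Set (SimpleGraph (Fin n)))) := by
    rintro ⟨G, S⟩ ⟨-, M, h1, h2⟩
    refine ⟨(M.graph, G ⊔ S), ⟨⟨M, rfl⟩, Set.mem_univ _⟩, ?_⟩
    refine Prod.ext ?_ ?_
    · ext u v
      have a1 := h1 u v
      have a2 := h2 u v
      simp only [SimpleGraph.inf_adj, SimpleGraph.sup_adj]
      tauto
    · ext u v
      have a1 := h1 u v
      have a2 := h2 u v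
      simp only [SimpleGraph.sdiff_adj, SimpleGraph.sup_adj]
      tauto
  have h1 := Set.ncard_le_ncard hsub (Set.toFinite _)
  refine h1.trans ((Set.ncard_image_le (Set.toFinite _)).trans ?_)
  rw [Set.ncard_prod, Set.ncard_univ, hGC n]
  exact Nat.mul_le_mul_right _ (pcgs_le hVC hUO hGC hNU n)

theorem inputs_card (hPC : StPC) (n : ℕ) : (inputs n).ncard = 3 ^ n.choose 2 := by
  rw [← hPC n]
  congr 1
  ext ⟨G, S⟩
  simp only [inputs, Set.mem_setOf_eq]
  constructor
  · intro h
    rw [disjoint_iff_inf_le]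
    intro u v huv
    exact absurd huv.1 (h u v huv.2)
  · intro h u v h1 h2
    have h3 : (G ⊓ S).Adj u v := ⟨h2, h1⟩
    rw [disjoint_iff.1 h] at h3
    exact h3

end Pool.Agent.CN
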