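import Pool.Agent.Work.MP_9390ab_lc.CN.Stmts

/-!
[9390ab CN] Item NU: the numerical inequality.
-/

set_option autoImplicit false

namespace Pool.Agent.CN

theorem pr_NU : StNU := by
  intro n
  by_cases hn : n ≤ 17
  · right
    rcases Nat.lt_or_ge n 2 with h2 | h2
    · interval_cases n <;> simp
    · have h3 : n.choose 2 ≤ 8 * n := by
        rw [Nat.choose_two_right]
        apply Nat.div_le_of_le_mul
        have h4 : n - 1 ≤ 16 := by omega
        calc n * (n - 1) ≤ n * 16 := Nat.mul_le_mul_left _ h4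
          _ = 2 * (8 * n) := by ring
      exact (Nat.pow_le_pow_right (by norm_num) h3).trans (Nat.pow_le_pow_left h2 _)
  · left
    push Not at hn
    have h1 : n.factorial ≤ n ^ n := Nat.factorial_le_pow n
    have h0 : 1 ≤ n ^ 3 := Nat.one_le_pow _ _ (by omega)
    have h2 : (n ^ 3 + 1) ^ (2 * n + 2) ≤ (2 * n ^ 3) ^ (2 * n + 2) :=
      Nat.pow_le_pow_left (by omega) _
    have h3 : 2 ^ (2 * n + 2) ≤ n ^ (n - 6) := by
      calc 2 ^ (2 * n + 2) ≤ 2 ^ (4 * (n - 6)) := Nat.pow_le_pow_right (by norm_num) (by omega)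
        _ = 16 ^ (n - 6) := by rw [pow_mul]; norm_num
        _ ≤ n ^ (n - 6) := Nat.pow_le_pow_left (by omega) _
    calc n.factorial * (n ^ 3 + 1) ^ (2 * n + 2) ≤ n ^ n * (2 * n ^ 3) ^ (2 * n + 2) :=
          Nat.mul_le_mul h1 h2
      _ = n ^ n * (2 ^ (2 * n + 2) * n ^ (3 * (2 * n + 2))) := by rw [mul_pow, ← pow_mul]
      _ ≤ n ^ n * (n ^ (n - 6) * n ^ (3 * (2 * n + 2))) :=
          Nat.mul_le_mul_left _ (Nat.mul_le_mul_right _ h3)
      _ = n ^ (8 * n) := by
          rw [← pow_add, ← pow_add]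
          congr 1
          omega

end Pool.Agent.CN
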