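import Pool.Agent.Work.MP_9390ab_lc.CN.Stmts

set_option autoImplicit false

namespace Pool.Agent.CN

open Finset
open scoped Classical

theorem uo_core {α : Type} (s : α → α → ℝ)
    (hult : ∀ u v w, min (s u v) (s v w) ≤ s u w) :
    ∀ N : ℕ, ∀ A : Finset α, A.card ≤ N → A.Nonempty → ∃ (f : ℕ → α) (g : ℕ → ℝ),
      (∀ i, i < A.card → f i ∈ A) ∧ (∀ i j, i < A.card → j < A.card → f i = f j → i = j) ∧
      (∀ i j, i < j → j < A.card → (∀ k, i ≤ k → k < j → s (f i) (f j) ≤ g k) ∧
        ∃ k, i ≤ k ∧ k < j ∧ s (f i) (f j) = g k) := by
  intro N
  induction N with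
  | zero =>
    intro A hA hne
    have := hne.card_pos
    omega
  | succ N ih =>
    intro A hA hne
    by_cases h1 : A.card = 1
    · obtain ⟨a, ha⟩ := Finset.card_eq_one.mp h1
      refine ⟨fun _ => a, fun _ => 0, ?_, ?_, ?_⟩
      · intro i _
        rw [ha]
        exact Finset.mem_singleton_self a
      · intro i j hi hj _
        omega
      · intro i j hij hj
        omega
    · have hne2 : A.offDiag.Nonempty := by
        rw [← Finset.card_pos, Finset.offDiag_card]
        have := hne.card_pos
        have h2 : 2 ≤ A.card := by omega
        have : A.card < A.card * A.card := by nlinarith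
        omega
      obtain ⟨⟨u, v⟩, huv, hmin⟩ := Finset.exists_min_image A.offDiag (fun p => s p.1 p.2) hne2
      rw [Finset.mem_offDiag] at huv
      obtain ⟨hu, hv, hne3⟩ := huv
      simp only at hu hv hne3
      obtain ⟨m, hm⟩ : ∃ m, m = s u v := ⟨_, rfl⟩
      have hmin' : ∀ x ∈ A, ∀ y ∈ A, x ≠ y → m ≤ s x y := by
        intro x hx y hy hxy
        rw [hm]
        exact hmin (x, y) (Finset.mem_offDiag.mpr ⟨hx, hy, hxy⟩)
      obtain ⟨B, hB⟩ : ∃ B : Finset α, B = A.filter (fun x => x = u ∨ m < s u x) := ⟨_, rfl⟩
      obtain ⟨C, hC⟩ : ∃ C : Finset α, C = A.filter (fun x => ¬ (x = u ∨ m < s u x)) := ⟨_, rfl⟩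
      have hcard : B.card + C.card = A.card := by
        rw [hB, hC]
        exact Finset.card_filter_add_card_filter_not (s := A) _
      have huB : u ∈ B := by
        rw [hB, Finset.mem_filter]
        exact ⟨hu, Or.inl rfl⟩
      have hvC : v ∈ C := by
        rw [hC, Finset.mem_filter]
        refine ⟨hv, ?_⟩
        rintro (h | h)
        · exact hne3 h.symm
        · rw [hm] at h
          exact lt_irrefl _ h
      have hBpos : 0 < B.card := Finset.card_pos.mpr ⟨u, huB⟩
      have hCpos : 0 < C.card := Finset.card_pos.mpr ⟨v, hvC⟩
      have hBA : B ⊆ A := by rw [hB]; exact Finset.filter_subset _ _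
      have hCA : C ⊆ A := by rw [hC]; exact Finset.filter_subset _ _
      have hBC : ∀ b ∈ B, ∀ c ∈ C, b ≠ c ∧ s b c = m := by
        intro b hb c hc
        rw [hB, Finset.mem_filter] at hb
        rw [hC, Finset.mem_filter] at hc
        have hbc : b ≠ c := by
          rintro rfl
          exact hc.2 hb.2
        refine ⟨hbc, le_antisymm ?_ (hmin' b hb.1 c hc.1 hbc)⟩
        by_contra hcon
        push Not at hcon
        apply hc.2
        right
        rcases hb.2 with h | h
        · rw [h] at hcon
          exact hcon
        · exact lt_of_lt_of_le (lt_min h hcon) (hult u b c)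
      obtain ⟨f1, g1, a1, b1, c1⟩ := ih B (by omega) ⟨u, huB⟩
      obtain ⟨f2, g2, a2, b2, c2⟩ := ih C (by omega) ⟨v, hvC⟩
      have gap1 : ∀ k, k + 1 < B.card → m ≤ g1 k := by
        intro k hk
        obtain ⟨k', h1, h2, h3⟩ := (c1 k (k + 1) (by omega) hk).2
        have : k' = k := by omega
        rw [this] at h3
        rw [← h3]
        apply hmin' _ (hBA (a1 k (by omega))) _ (hBA (a1 (k + 1) hk))
        intro he
        have := b1 k (k + 1) (by omega) hk he
        omega
      have gap2 : ∀ k, k + 1 < C.card → m ≤ g2 k := by
        intro k hk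
        obtain ⟨k', h1, h2, h3⟩ := (c2 k (k + 1) (by omega) hk).2
        have : k' = k := by omega
        rw [this] at h3
        rw [← h3]
        apply hmin' _ (hCA (a2 k (by omega))) _ (hCA (a2 (k + 1) hk))
        intro he
        have := b2 k (k + 1) (by omega) hk he
        omega
      obtain ⟨p, hp⟩ : ∃ p, p = B.card := ⟨_, rfl⟩
      rw [← hp] at hcard hBpos a1 b1 c1 gap1
      refine ⟨fun k => if k < p then f1 k else f2 (k - p),
        fun k => if k + 1 < p then g1 k else if k < p then m else g2 (k - p), ?_, ?_, ?_⟩
      · intro i hi
        by_cases h : i < p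
        · simp only [if_pos h]
          exact hBA (a1 i h)
        · simp only [if_neg h]
          exact hCA (a2 (i - p) (by omega))
      · intro i j hi hj hij
        by_cases h : i < p
        · by_cases h' : j < p
          · simp only [if_pos h, if_pos h'] at hij
            exact b1 i j h h' hij
          · simp only [if_pos h, if_neg h'] at hij
            exact absurd hij (hBC _ (a1 i h) _ (a2 (j - p) (by omega))).1
        · by_cases h' : j < p
          · simp only [if_neg h, if_pos h'] at hij
            exact absurd hij.symm (hBC _ (a1 j h') _ (a2 (i - p) (by omega))).1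
          · simp only [if_neg h, if_neg h'] at hij
            have := b2 (i - p) (j - p) (by omega) (by omega) hij
            omega
      · intro i j hij hj
        by_cases h' : j < p
        · have h : i < p := by omega
          simp only [if_pos h, if_pos h']
          obtain ⟨d1, k, d2, d3, d4⟩ := c1 i j hij h'
          constructor
          · intro k hk1 hk2
            rw [if_pos (by omega : k + 1 < p)]
            exact d1 k hk1 hk2
          · exact ⟨k, d2, d3, by rw [if_pos (by omega : k + 1 < p)]; exact d4⟩
        · by_cases h : i < p
          · simp only [if_pos h, if_neg h']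
            have e := (hBC _ (a1 i h) _ (a2 (j - p) (by omega))).2
            constructor
            · intro k hk1 hk2
              rw [e]
              by_cases q1 : k + 1 < p
              · rw [if_pos q1]
                exact gap1 k q1
              · rw [if_neg q1]
                by_cases q2 : k < p
                · rw [if_pos q2]
                · rw [if_neg q2]
                  exact gap2 (k - p) (by omega)
            · refine ⟨p - 1, by omega, by omega, ?_⟩
              rw [if_neg (by omega : ¬ (p - 1 + 1 < p)), if_pos (by omega : p - 1 < p)]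
              exact e
          · simp only [if_neg h, if_neg h']
            obtain ⟨d1, k, d2, d3, d4⟩ := c2 (i - p) (j - p) (by omega) (by omega)
            constructor
            · intro k hk1 hk2
              rw [if_neg (by omega : ¬ (k + 1 < p)), if_neg (by omega : ¬ (k < p))]
              exact d1 (k - p) (by omega) (by omega)
            · refine ⟨k + p, by omega, by omega, ?_⟩
              rw [if_neg (by omega : ¬ (k + p + 1 < p)), if_neg (by omega : ¬ (k + p < p))]
              have : k + p - p = k := by omega
              rw [this]
              exact d4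

theorem pr_UO : StUO := by
  intro n s _ hult
  rcases Nat.eq_zero_or_pos n with hn | hn
  · subst hn
    exact ⟨Equiv.refl _, fun _ => 0, fun i => i.elim0⟩
  · have hne : (Finset.univ : Finset (Fin n)).Nonempty := ⟨⟨0, hn⟩, Finset.mem_univ _⟩
    obtain ⟨f, g, _, h2, h3⟩ := uo_core s hult n Finset.univ (by simp) hne
    have hc : (Finset.univ : Finset (Fin n)).card = n := by simp
    rw [hc] at h2 h3
    have hinj : Function.Injective (fun i : Fin n => f i) := by
      intro i j hij
      exact Fin.ext (h2 i j i.2 j.2 hij)
    refine ⟨Equiv.ofBijective _ (Finite.injective_iff_bijective.mp hinj), fun k => g k, ?_⟩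
    intro i j hij
    obtain ⟨d1, k, d2, d3, d4⟩ := h3 i j hij j.2
    constructor
    · intro k hk1 hk2
      exact d1 k hk1 hk2
    · exact ⟨⟨k, by omega⟩, d2, d3, d4⟩

end Pool.Agent.CN
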