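import Pool.Agent.Work.MP_9390ab_lc.CN.Stmts2

/-!
# Limits
-/

set_option autoImplicit false

namespace Pool.Agent.CN

open Filter Topology

theorem lim_aux {q : ℝ} (hq0 : 0 < q) (hq1 : q < 1) :
    Tendsto (fun n : ℕ => (n : ℝ) ^ (8 * n) * q ^ n.choose 2) atTop (𝓝 0) := by
  have h1 : Tendsto (fun n : ℕ => (n : ℝ) ^ 16 * q ^ n) atTop (𝓝 0) :=
    tendsto_pow_const_mul_const_pow_of_abs_lt_one 16 (by rw [abs_of_pos hq0]; exact hq1)
  have h2 : ∀ᶠ n : ℕ in atTop, (n : ℝ) ^ 16 * q ^ n < q / 4 :=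
    h1.eventually (gt_mem_nhds (by positivity))
  have h3 : Tendsto (fun n : ℕ => (1 / 2 : ℝ) ^ n) atTop (𝓝 0) :=
    tendsto_pow_atTop_nhds_zero_of_lt_one (by norm_num) (by norm_num)
  refine squeeze_zero' (Eventually.of_forall fun n => by positivity) ?_ h3
  filter_upwards [h2, eventually_ge_atTop 1] with n hn hn1
  have e1 : n.choose 2 * 2 = n * (n - 1) := by
    rw [Nat.choose_two_right]
    exact Nat.div_mul_cancel (Nat.even_mul_pred_self n).two_dvd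
  have e2 : (n : ℝ) ^ 16 * q ^ (n - 1) ≤ 1 / 4 := by
    have e3 : q ^ n = q ^ (n - 1) * q := by
      rw [← pow_succ]
      congr 1
      omega
    rw [e3] at hn
    have : (n : ℝ) ^ 16 * q ^ (n - 1) * q < 1 / 4 * q := by linarith
    exact (lt_of_mul_lt_mul_right this hq0.le).le
  have e4 : ((n : ℝ) ^ (8 * n) * q ^ n.choose 2) ^ 2 ≤ ((1 / 2 : ℝ) ^ n) ^ 2 := by
    calc ((n : ℝ) ^ (8 * n) * q ^ n.choose 2) ^ 2 = ((n : ℝ) ^ 16 * q ^ (n - 1)) ^ n := by
          rw [mul_pow, mul_pow, ← pow_mul, ← pow_mul, ← pow_mul, ← pow_mul, e1,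
            mul_comm (n - 1) n]
          congr 2
          ring
      _ ≤ (1 / 4 : ℝ) ^ n := pow_le_pow_left₀ (by positivity) e2 n
      _ = ((1 / 2 : ℝ) ^ n) ^ 2 := by
          rw [← pow_mul, mul_comm n 2, pow_mul]
          norm_num
  exact le_of_sq_le_sq_aux e4 (by positivity)
where
  le_of_sq_le_sq_aux {a b : ℝ} (h : a ^ 2 ≤ b ^ 2) (hb : 0 ≤ b) : a ≤ b := by
    nlinarith [abs_le_of_sq_le_sq h hb, le_abs_self a]

end Pool.Agent.CN
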