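import Mathlib
import Pool.Agent.Work.MP_9390ab_lc.FourPoint

/-!
# Statements of the items of the block CN (counting pairwise compatibility graphs)
-/

set_option autoImplicit false

namespace Pool.Agent.CN

/-- VC. Number of sign patterns of linear forms. PROOF: let `A` be the finset (classical) of the
finsets `univ.filter (fun i => 0 ≤ F i x)`, `x : E` (a `Finset (Finset ι)` obtained by
`univ.filter (fun B => ∃ x, B = univ.filter (fun i => 0 ≤ F i x))`). It shatters no `t` with more than
`finrank ℝ E` members: the forms `F i`, `i ∈ t`, are linearly dependent (the dual has the same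
finrank), say `∑ i ∈ t, c i • F i = 0`, not all `c i` zero, and after a change of sign some
`c i < 0`; by shattering there is `x` with `0 ≤ F i x ↔ 0 ≤ c i` for all `i ∈ t`, then
`0 < ∑ i ∈ t, c i * F i x`, a contradiction. So `A.vcDim ≤ finrank`, and Sauer-Shelah
(`Finset.card_le_card_shatterer`, `Finset.card_shatterer_le_sum_vcDim`) gives
`#A ≤ ∑ k ∈ Iic m, N.choose k ≤ (N + 1) ^ m` (binomial theorem and `Nat.choose_le_pow`). -/
def StVC : Prop := ∀ (ι E : Type) [Fintype ι] [AddCommGroup E] [Module ℝ E]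
  [FiniteDimensional ℝ E] (F : ι → E →ₗ[ℝ] ℝ),
  (Set.range (fun x : E => {i : ι | 0 ≤ F i x})).ncard ≤
    (Fintype.card ι + 1) ^ Module.finrank ℝ E

/-- UO. An ultrametric similarity is a minimum of gaps along a suitable ordering. PROOF: show by
strong induction on the number of points of a nonempty finset `A` of `Fin n` that there is a list
`l` without repetitions with the members of `A` and with: for `i < j < l.length`,
`s l[i] l[j] ≤ s l[k] l[k+1]` for all `i ≤ k < j`, with equality for some `k`. One point: clear.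
Otherwise let `m` be the least value of `s u v`, `u ≠ v` in `A`; `u ~ v` iff `u = v` or
`m < s u v` is an equivalence relation on `A` (ultra), `B` = the class of one end `u` of a pair with
`s u v = m`, `C = A \ B` (contains `v`); `s b c = m` for `b ∈ B`, `c ∈ C`; concatenate the two lists
of `B` and `C`: for `i` in the first and `j` in the second part the value is `m`, which is the gap at
the joint, and all gaps are `≥ m`. Then `π i = l[i]`, `g k = s l[k] l[k+1]`. -/
def StUO : Prop := ∀ (n : ℕ) (s : Fin n → Fin n → ℝ), (∀ u v, s u v = s v u) →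
  (∀ u v w, min (s u v) (s v w) ≤ s u w) →
  ∃ (π : Equiv.Perm (Fin n)) (g : Fin n → ℝ), ∀ i j : Fin n, i < j →
    (∀ k, i ≤ k → k < j → s (π i) (π j) ≤ g k) ∧ ∃ k, i ≤ k ∧ k < j ∧ s (π i) (π j) = g k

/-- GC. The number of graphs on `Fin n` (bijection with the sets of pairs `i < j`, or with
`Set {e : Sym2 (Fin n) // ¬ e.IsDiag}`, `Sym2.card_subtype_not_diag`). -/
def StGC : Prop := ∀ n : ℕ, Nat.card (SimpleGraph (Fin n)) = 2 ^ n.choose 2

/-- PC. The number of pairs of graphs without a common edge (bijection with the functions from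
the `n.choose 2` pairs to three values). -/
def StPC : Prop := ∀ n : ℕ, {p : SimpleGraph (Fin n) × SimpleGraph (Fin n) |
  Disjoint p.1 p.2}.ncard = 3 ^ n.choose 2

/-- NU. Numerical inequality. PROOF: `n ≤ 17`: `n.choose 2 = n (n - 1) / 2 ≤ 8 n`, second
alternative (`n = 0` separately, `n = 1`: `2 ^ 0 ≤ 1`). `18 ≤ n`: `n ! ≤ n ^ n`,
`(n ^ 3 + 1) ^ (2 n + 2) ≤ (2 n ^ 3) ^ (2 n + 2) = 2 ^ (2 n + 2) * n ^ (6 n + 6)` and
`2 ^ (2 n + 2) ≤ 16 ^ (n - 6) ≤ n ^ (n - 6)`. -/
def StNU : Prop := ∀ n : ℕ, n.factorial * (n ^ 3 + 1) ^ (2 * n + 2) ≤ n ^ (8 * n) ∨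
  2 ^ n.choose 2 ≤ n ^ (8 * n)

end Pool.Agent.CN
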