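import Pool.Agent.Work.MP_9390ab_lc.CN.Stmts

/-!
# The sets which are counted, and the item LB
-/

set_option autoImplicit false

namespace Pool.Agent.CN

open Pool.Agent.PCG

/-- The pairwise compatibility graphs with the set of vertices `Fin n`: the graphs
`PCG(T, dmin, dmax)` of the weighted trees `T` whose leaves are named by `Fin n`. -/
def pcgs (n : ℕ) : Set (SimpleGraph (Fin n)) := {G | ∃ M : WTree (Fin n), M.graph = G}

/-- The inputs of generalized PCG recognition with the set of vertices `Fin n`: a graph `G` and a
set `S` of pairs (again a graph), none of which is an edge of `G`. -/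
def inputs (n : ℕ) : Set (SimpleGraph (Fin n) × SimpleGraph (Fin n)) :=
  {p | ∀ u v, p.2.Adj u v → ¬ p.1.Adj u v}

/-- The inputs with the answer yes: some pairwise compatibility graph contains every edge of `G`
and no pair of `S`. -/
def yesInputs (n : ℕ) : Set (SimpleGraph (Fin n) × SimpleGraph (Fin n)) :=
  {p | p ∈ inputs n ∧ ∃ M : WTree (Fin n), (∀ u v, p.1.Adj u v → M.graph.Adj u v) ∧
    ∀ u v, p.2.Adj u v → ¬ M.graph.Adj u v}

/-- LB. A lower bound for the number of pairwise compatibility graphs. PROOF. (a) STAR: for
`2 ≤ n`, `w : Fin n → ℝ` positive and `0 ≤ a ≤ b` there is `M : WTree (Fin n)` with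
`M.graph.Adj u v ↔ u ≠ v ∧ a ≤ w u + w v ∧ w u + w v ≤ b`: the star with vertex set
`Option (Fin n)`, centre `none`, leaves `some u` (files ParTree.lean: `parGraph`,
`parGraph_isTree`, `treeDist_two`, and Build.lean for the pattern `wt`, `leaf_iff`).
(b) For a permutation `σ` of `Fin m` let `w i = i + 1` for `i < m` and `w (m + j) = σ j + 1` for
`j < m`, `a = m + 1`, `b = 4 m + 4`: then `i` and `m + j` are adjacent iff `m ≤ i + σ j + 1`, so
`σ j` is the number of neighbours of `m + j` among `0, ..., m - 1` minus one, and different `σ`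
give different graphs. -/
def StLB : Prop := ∀ m : ℕ, 1 ≤ m → m.factorial ≤ (pcgs (2 * m)).ncard

end Pool.Agent.CN
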